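import Pool.Agent.W927.BM.Stm

set_option autoImplicit false

open MeasureTheory Set

namespace Pool.Agent.W374.BMMT

open Pool.Agent.W927.BM

theorem ds_split {s : ℤ → ℤ} {y b b' : ℤ} (h1 : y < b) (h2 : b < b') :
    ds s y b' = ds s y b + s b + ds s b b' := by
  unfold ds
  have h : Finset.Ioo y b' = Finset.Ioo y b ∪ ({b} ∪ Finset.Ioo b b') := by
    ext z
    simp only [Finset.mem_Ioo, Finset.mem_union, Finset.mem_singleton]
    omega
  rw [h, Finset.sum_union, Finset.sum_union, Finset.sum_singleton, add_assoc]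
  · rw [Finset.disjoint_left]
    intro z hz
    simp only [Finset.mem_Ioo, Finset.mem_singleton] at hz ⊢
    omega
  · rw [Finset.disjoint_left]
    intro z hz
    simp only [Finset.mem_Ioo, Finset.mem_union, Finset.mem_singleton] at hz ⊢
    omega

theorem ds_pred {s : ℤ → ℤ} {a b : ℤ} (h : a < b) : ds s (a - 1) b = s a + ds s a b := by
  unfold ds
  have h : Finset.Ioo (a - 1) b = {a} ∪ Finset.Ioo a b := by
    ext z
    simp only [Finset.mem_Ioo, Finset.mem_union, Finset.mem_singleton]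
    omega
  rw [h, Finset.sum_union, Finset.sum_singleton]
  rw [Finset.disjoint_left]
  intro z hz
  simp only [Finset.mem_Ioo, Finset.mem_singleton] at hz ⊢
  omega

theorem fl_unique_lt {s : ℤ → ℤ} {y b b' : ℤ} (hs : s b = -1) (h1 : Fl s b y) (h2 : Fl s b' y)
    (h : b < b') : False := by
  have e := ds_split (s := s) h1.1 h
  have h3 := h2.2.2 b h1.1.le h
  have h4 := h2.2.1
  have h5 := h1.2.1
  omega

theorem fl_unique {s : ℤ → ℤ} {y b b' : ℤ} (hs : s b = -1) (hs' : s b' = -1) (h1 : Fl s b y)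
    (h2 : Fl s b' y) : b = b' := by
  rcases lt_trichotomy b b' with h | h | h
  · exact (fl_unique_lt hs h1 h2 h).elim
  · exact h
  · exact (fl_unique_lt hs' h2 h1 h).elim

theorem mt_unique_lt {s : ℤ → ℤ} {a a' b : ℤ} (h1 : Mt s a b) (h2 : Mt s a' b) (h : a < a') :
    False := by
  have e := ds_pred (s := s) h2.2.2.1
  have h3 := h1.2.2.2.2 (a' - 1) (by omega) (by have := h2.2.2.1; omega)
  have h4 := h2.2.2.2.1
  have h5 := h2.1
  omega

theorem mt_unique {s : ℤ → ℤ} {a a' b : ℤ} (h1 : Mt s a b) (h2 : Mt s a' b) : a = a' := by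
  rcases lt_trichotomy a a' with h | h | h
  · exact (mt_unique_lt h1 h2 h).elim
  · exact h
  · exact (mt_unique_lt h2 h1 h).elim

theorem ds_shift (s : ℤ → ℤ) (i p q : ℤ) : ds (fun j => s (j + i)) p q = ds s (p + i) (q + i) := by
  unfold ds
  have h : Finset.Ioo (p + i) (q + i) = (Finset.Ioo p q).map (addRightEmbedding i) := by
    rw [Finset.map_add_right_Ioo]
  rw [h, Finset.sum_map]
  rfl

theorem fl_shift (s : ℤ → ℤ) (i b y : ℤ) :
    Fl (fun j => s (j + i)) b y ↔ Fl s (b + i) (y + i) := by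
  unfold Fl
  simp only [ds_shift]
  constructor
  · rintro ⟨h1, h2, h3⟩
    refine ⟨by omega, h2, fun z hz1 hz2 => ?_⟩
    have := h3 (z - i) (by omega) (by omega)
    rwa [sub_add_cancel] at this
  · rintro ⟨h1, h2, h3⟩
    exact ⟨by omega, h2, fun z hz1 hz2 => h3 (z + i) (by omega) (by omega)⟩

theorem mt_shift (s : ℤ → ℤ) (i a b : ℤ) :
    Mt (fun j => s (j + i)) a b ↔ Mt s (a + i) (b + i) := by
  unfold Mt
  rw [fl_shift]

section

variable {X : Type} [MeasurableSpace X] {μ : Measure X} [IsProbabilityMeasure μ] {a : ℤ → X → X}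
  (h0 : ∀ x, a 0 x = x) (ha : ∀ i j x, a (i + j) x = a i (a j x))
  (hm : ∀ i, MeasurePreserving (a i) μ μ) {f : X → ℤ} (hf : Measurable f)

/-- the sequence of the column -/
def sq (a : ℤ → X → X) (f : X → ℤ) (x : X) : ℤ → ℤ := fun j => f (a j x)

include ha in
omit [IsProbabilityMeasure μ] [MeasurableSpace X] in
theorem sq_shift (i : ℤ) (x : X) : sq a f (a i x) = fun j => sq a f x (j + i) := by
  funext j
  unfold sq
  rw [ha]

include hm hf in
omit [IsProbabilityMeasure μ] in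
theorem meas_sq (j : ℤ) : Measurable (fun x => sq a f x j) := hf.comp (hm j).measurable

include hm hf in
omit [IsProbabilityMeasure μ] in
theorem meas_ds (p q : ℤ) : Measurable (fun x => ds (sq a f x) p q) := by
  unfold ds
  exact Finset.measurable_sum _ (fun j _ => meas_sq hm hf j)

include hm hf in
omit [IsProbabilityMeasure μ] in
theorem meas_fl (b y : ℤ) : MeasurableSet {x | Fl (sq a f x) b y} := by
  have h : {x | Fl (sq a f x) b y} = {x | y < b} ∩ ({x | ds (sq a f x) y b = 0} ∩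
      ⋂ z : ℤ, {x | y ≤ z → z < b → ds (sq a f x) z b ≤ 0}) := by
    ext x
    simp only [Fl, mem_ofPred_eq, mem_inter_iff, mem_iInter]
  rw [h]
  refine (MeasurableSet.const _).inter ((meas_ds hm hf y b (measurableSet_singleton 0)).inter ?_)
  refine MeasurableSet.iInter (fun z => ?_)
  by_cases h1 : y ≤ z ∧ z < b
  · have : {x | y ≤ z → z < b → ds (sq a f x) z b ≤ 0} = (fun x => ds (sq a f x) z b) ⁻¹' Iic 0 := by
      ext x
      simp only [mem_ofPred_eq, mem_preimage, mem_Iic, h1.1, h1.2, forall_const]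
    rw [this]
    exact meas_ds hm hf z b measurableSet_Iic
  · have : {x | y ≤ z → z < b → ds (sq a f x) z b ≤ 0} = univ := by
      ext x
      simp only [mem_ofPred_eq, mem_univ, iff_true]
      intro h2 h3
      exact absurd ⟨h2, h3⟩ h1
    rw [this]
    exact MeasurableSet.univ

/-- the floor of `0` contains `-j` -/
def AA (a : ℤ → X → X) (f : X → ℤ) (j : ℕ) : Set X :=
  {x | sq a f x 0 = -1 ∧ Fl (sq a f x) 0 (-(j : ℤ))}

include hm hf in
omit [IsProbabilityMeasure μ] in
theorem meas_AA (j : ℕ) : MeasurableSet (AA a f j) :=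
  (meas_sq hm hf 0 (measurableSet_singleton (-1))).inter (meas_fl hm hf 0 _)

include ha hm hf in
theorem sum_AA : ∑' j, μ (AA a f j) ≤ 1 := by
  have h1 : ∀ j : ℕ, μ (AA a f j) = μ (a j ⁻¹' AA a f j) := fun j =>
    ((hm j).measure_preimage (meas_AA hm hf j).nullMeasurableSet).symm
  have h2 : ∀ j : ℕ, a j ⁻¹' AA a f j ⊆ {x | sq a f x j = -1 ∧ Fl (sq a f x) j 0} := by
    intro j x hx
    obtain ⟨h3, h4⟩ := hx
    rw [sq_shift ha] at h3 h4
    rw [fl_shift] at h4
    simp only [zero_add, neg_add_cancel] at h3 h4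
    exact ⟨h3, h4⟩
  rw [tsum_congr h1, ← measure_iUnion]
  · exact prob_le_one
  · intro i j hij
    rw [Function.onFun, Set.disjoint_left]
    intro x hx hx'
    obtain ⟨h3, h4⟩ := h2 i hx
    obtain ⟨h5, h6⟩ := h2 j hx'
    have := fl_unique h3 h5 h4 h6
    exact hij (by exact_mod_cast this)
  · intro j
    exact (hm j).measurable (meas_AA hm hf j)

theorem fl_neg {s : ℤ → ℤ} {y : ℤ} (h : Fl s 0 y) : y = -((-y).toNat : ℤ) := by
  have := h.1
  omega

include h0 ha hm hf in
theorem mt1_aux : ∀ᵐ x ∂μ, ∀ b, f (a b x) = -1 → {y | Fl (sq a f x) b y}.Finite := by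
  have h1 : ∀ᵐ x ∂μ, {j | x ∈ AA a f j}.Finite := by
    apply ae_finite_setOfPred_mem
    exact ((sum_AA ha hm hf).trans_lt ENNReal.one_lt_top).ne
  rw [ae_all_iff]
  intro b
  have h2 : ∀ᵐ x ∂μ, {j | a b x ∈ AA a f j}.Finite := (hm b).quasiMeasurePreserving.ae h1
  filter_upwards [h2] with x hx hb
  have h3 : {y | Fl (sq a f (a b x)) 0 y}.Finite := by
    apply Set.Finite.subset (hx.image (fun j : ℕ => -(j : ℤ)))
    intro y hy
    refine ⟨(-y).toNat, ⟨?_, ?_⟩, (fl_neg hy).symm⟩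
    · show f (a 0 (a b x)) = -1
      rw [h0]; exact hb
    · rw [← fl_neg hy]
      exact hy
  have h4 : {y | Fl (sq a f x) b y} ⊆ (fun y => y + b) '' {y | Fl (sq a f (a b x)) 0 y} := by
    intro y hy
    refine ⟨y - b, ?_, by simp⟩
    show Fl (sq a f (a b x)) 0 (y - b)
    rw [sq_shift ha, fl_shift, zero_add, sub_add_cancel]
    exact hy
  exact (h3.image _).subset h4

/-- the match of `0` is at or below `-j` -/
def BB (a : ℤ → X → X) (f : X → ℤ) (j : ℕ) : Set X :=
  {x | 1 ≤ j ∧ ∃ α : ℤ, α ≤ -(j : ℤ) ∧ Mt (sq a f x) α 0}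

include hm hf in
omit [IsProbabilityMeasure μ] in
theorem meas_mt (α b : ℤ) : MeasurableSet {x | Mt (sq a f x) α b} :=
  (meas_sq hm hf α (measurableSet_singleton 1)).inter
    ((meas_sq hm hf b (measurableSet_singleton (-1))).inter (meas_fl hm hf b α))

include hm hf in
omit [IsProbabilityMeasure μ] in
theorem meas_BB (j : ℕ) : MeasurableSet (BB a f j) := by
  have h : BB a f j = {x | 1 ≤ j} ∩ ⋃ α : ℤ, ({x | α ≤ -(j : ℤ)} ∩ {x | Mt (sq a f x) α 0}) := by
    ext x
    simp only [BB, mem_ofPred_eq, mem_inter_iff, mem_iUnion]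
  rw [h]
  exact (MeasurableSet.const _).inter (MeasurableSet.iUnion (fun α =>
    (MeasurableSet.const _).inter (meas_mt hm hf α 0)))

omit [MeasurableSpace X] in
theorem point {K : ℕ} {x : X}
    (hx : ∀ α b, Mt (sq a f x) α b → b - α ≤ K * ({y | Fl (sq a f x) b y}.ncard : ℤ)) :
    ∑' j, (BB a f j).indicator (1 : X → ENNReal) x
      ≤ K * ∑' j, (AA a f j).indicator (1 : X → ENNReal) x := by
  by_cases hex : ∃ α, Mt (sq a f x) α 0
  · obtain ⟨α, hα⟩ := hex
    have hneg : α < 0 := hα.2.2.1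
    have hk := hx α 0 hα
    have hB : ∀ j ∉ Finset.Icc 1 (-α).toNat, (BB a f j).indicator (1 : X → ENNReal) x = 0 := by
      intro j hj
      apply indicator_of_notMem
      rintro ⟨h1, α', h2, h3⟩
      have := mt_unique hα h3
      rw [Finset.mem_Icc] at hj
      omega
    rw [tsum_eq_sum hB]
    have h1 : ∑ j ∈ Finset.Icc 1 (-α).toNat, (BB a f j).indicator (1 : X → ENNReal) x
        ≤ ((-α).toNat : ENNReal) := by
      calc _ ≤ ∑ j ∈ Finset.Icc 1 (-α).toNat, (1 : ENNReal) := by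
            apply Finset.sum_le_sum
            intro j _
            exact indicator_le_self' (fun _ _ => zero_le_one) x
        _ = ((-α).toNat : ENNReal) := by
            rw [Finset.sum_const, Nat.card_Icc, nsmul_eq_mul, mul_one, Nat.add_sub_cancel]
    set S : Set ℤ := {y | Fl (sq a f x) 0 y} with hS
    have hfin : S.Finite := by
      by_contra hinf
      rw [Set.Infinite.ncard hinf] at hk
      simp at hk
      omega
    set F : Finset ℕ := hfin.toFinset.image (fun y => (-y).toNat) with hF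
    have hcard : F.card = S.ncard := by
      rw [Set.ncard_eq_toFinset_card S hfin, hF]
      apply Finset.card_image_of_injOn
      intro y hy z hz hyz
      rw [Finset.mem_coe, Set.Finite.mem_toFinset] at hy hz
      have e1 := fl_neg hy
      have e2 := fl_neg hz
      rw [e1, e2]
      simp only at hyz
      rw [hyz]
    have h2 : (F.card : ENNReal) ≤ ∑' j, (AA a f j).indicator (1 : X → ENNReal) x := by
      refine le_trans (le_of_eq ?_) (ENNReal.sum_le_tsum F)
      have : ∀ j ∈ F, (AA a f j).indicator (1 : X → ENNReal) x = 1 := by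
        intro j hj
        rw [hF, Finset.mem_image] at hj
        obtain ⟨y, hy, rfl⟩ := hj
        rw [Set.Finite.mem_toFinset] at hy
        rw [indicator_of_mem]
        · rfl
        · exact ⟨hα.2.1, by rw [← fl_neg hy]; exact hy⟩
      rw [Finset.sum_congr rfl this, Finset.sum_const, nsmul_eq_mul, mul_one]
    have h3 : ((-α).toNat : ENNReal) ≤ K * (F.card : ENNReal) := by
      rw [hcard]
      have : (-α).toNat ≤ K * S.ncard := by
        have h4 : 0 - α ≤ ((K * S.ncard : ℕ) : ℤ) := by push_cast; exact hk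
        omega
      exact_mod_cast this
    exact h1.trans (h3.trans (mul_le_mul_right h2 _))
  · have hB : ∀ j, (BB a f j).indicator (1 : X → ENNReal) x = 0 := by
      intro j
      apply indicator_of_notMem
      rintro ⟨_, α, _, h3⟩
      exact hex ⟨α, h3⟩
    rw [tsum_congr hB, tsum_zero]
    exact zero_le

include ha hm hf in
theorem sum_BB {K : ℕ} (hx : ∀ᵐ x ∂μ, ∀ α b, Mt (sq a f x) α b →
      b - α ≤ K * ({y | Fl (sq a f x) b y}.ncard : ℤ)) : ∑' j, μ (BB a f j) ≤ K := by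
  have h1 : ∑' j, μ (BB a f j) = ∫⁻ x, ∑' j, (BB a f j).indicator (1 : X → ENNReal) x ∂μ := by
    rw [lintegral_tsum]
    · apply tsum_congr
      intro j
      rw [lintegral_indicator_one (meas_BB hm hf j)]
    · intro j
      exact (measurable_one.indicator (meas_BB hm hf j)).aemeasurable
  have h2 : ∑' j, μ (AA a f j) = ∫⁻ x, ∑' j, (AA a f j).indicator (1 : X → ENNReal) x ∂μ := by
    rw [lintegral_tsum]
    · apply tsum_congr
      intro j
      rw [lintegral_indicator_one (meas_AA hm hf j)]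
    · intro j
      exact (measurable_one.indicator (meas_AA hm hf j)).aemeasurable
  rw [h1]
  calc ∫⁻ x, ∑' j, (BB a f j).indicator (1 : X → ENNReal) x ∂μ
      ≤ ∫⁻ x, K * ∑' j, (AA a f j).indicator (1 : X → ENNReal) x ∂μ := by
        apply lintegral_mono_ae
        filter_upwards [hx] with x hx
        exact point hx
    _ = K * ∑' j, μ (AA a f j) := by
        rw [h2, lintegral_const_mul]
        exact Measurable.tsum (fun j => measurable_one.indicator (meas_AA hm hf j))
    _ ≤ K * 1 := mul_le_mul_right (sum_AA ha hm hf) _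
    _ = K := mul_one _

include ha hm hf in
theorem mt2_aux {K : ℕ} (hx : ∀ᵐ x ∂μ, ∀ α b, Mt (sq a f x) α b →
      b - α ≤ K * ({y | Fl (sq a f x) b y}.ncard : ℤ)) :
    ∀ᵐ x ∂μ, ∀ j, {ab : ℤ × ℤ | Mt (sq a f x) ab.1 ab.2 ∧ ab.1 ≤ j ∧ j < ab.2}.Finite := by
  have h1 : ∑' j : ℕ, μ (a j ⁻¹' BB a f j) ≤ K := by
    refine le_trans (le_of_eq ?_) (sum_BB ha hm hf hx)
    apply tsum_congr
    intro j
    exact (hm j).measure_preimage (meas_BB hm hf j).nullMeasurableSet
  have h2 : ∀ᵐ x ∂μ, {j : ℕ | x ∈ a j ⁻¹' BB a f j}.Finite := by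
    apply ae_finite_setOfPred_mem
    exact (h1.trans_lt (ENNReal.natCast_lt_top K)).ne
  have h3 : ∀ᵐ x ∂μ, {ab : ℤ × ℤ | Mt (sq a f x) ab.1 ab.2 ∧ ab.1 ≤ 0 ∧ 0 < ab.2}.Finite := by
    filter_upwards [h2] with x hx
    apply Set.Finite.of_injOn (f := fun ab : ℤ × ℤ => ab.2.toNat) (t := {j : ℕ | x ∈ a j ⁻¹' BB a f j})
      _ _ hx
    · rintro ⟨α, b⟩ ⟨g1, g2, g3⟩
      simp only at g1 g2 g3 ⊢
      obtain ⟨n, rfl⟩ : ∃ n : ℕ, b = n := ⟨b.toNat, by omega⟩
      show a _ x ∈ BB a f _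
      rw [Int.toNat_natCast]
      refine ⟨by omega, α - n, by omega, ?_⟩
      rw [sq_shift ha, mt_shift, sub_add_cancel, zero_add]
      exact g1
    · rintro ⟨α, b⟩ ⟨g1, g2, g3⟩ ⟨α', b'⟩ ⟨g1', g2', g3'⟩ he
      simp only at g1 g2 g3 g1' g2' g3' he
      have hb : b = b' := by omega
      subst hb
      rw [mt_unique g1 g1']
  rw [ae_all_iff]
  intro j
  have h4 : ∀ᵐ x ∂μ, {ab : ℤ × ℤ | Mt (sq a f (a j x)) ab.1 ab.2 ∧ ab.1 ≤ 0 ∧ 0 < ab.2}.Finite :=
    (hm j).quasiMeasurePreserving.ae h3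
  filter_upwards [h4] with x hx
  have h5 : {ab : ℤ × ℤ | Mt (sq a f x) ab.1 ab.2 ∧ ab.1 ≤ j ∧ j < ab.2} ⊆
      (fun ab : ℤ × ℤ => (ab.1 + j, ab.2 + j)) ''
        {ab : ℤ × ℤ | Mt (sq a f (a j x)) ab.1 ab.2 ∧ ab.1 ≤ 0 ∧ 0 < ab.2} := by
    rintro ⟨α, b⟩ ⟨g1, g2, g3⟩
    simp only at g1 g2 g3
    refine ⟨(α - j, b - j), ⟨?_, by simp only; omega, by simp only; omega⟩, by simp⟩
    show Mt (sq a f (a j x)) (α - j) (b - j)
    rw [sq_shift ha, mt_shift, sub_add_cancel, sub_add_cancel]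
    exact g1
  exact (hx.image _).subset h5

end

theorem mt1 : S_MT1 := by
  intro X _ μ _ a h0 ha hm f hf
  exact mt1_aux h0 ha hm hf

theorem mt2 : S_MT2 := by
  intro X _ μ _ a h0 ha hm f hf K hx
  exact mt2_aux ha hm hf hx

end Pool.Agent.W374.BMMT
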