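import Pool.Agent.W927.BM.Stm

set_option autoImplicit false

namespace Pool.Agent.W374.BMTip

open Pool.Agent.W927.BM

theorem dd_comm (p q : ℤ × ℤ) : dd p q = dd q p := by
  unfold dd
  rw [abs_sub_comm p.1, abs_sub_comm p.2]

theorem dd_tri (p q r : ℤ × ℤ) : dd p r ≤ dd p q + dd q r := by
  unfold dd
  have h1 : |p.1 - r.1| ≤ |p.1 - q.1| + |q.1 - r.1| := abs_sub_le _ _ _
  have h2 : |p.2 - r.2| ≤ |p.2 - q.2| + |q.2 - r.2| := abs_sub_le _ _ _
  omega

theorem dd_self (p : ℤ × ℤ) : dd p p = 0 := by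
  unfold dd
  simp

theorem Sk_pos (k : ℕ) : 0 < Sk k := by
  induction k with
  | zero => unfold Sk; norm_num
  | succ k ih => unfold Sk; positivity

theorem Tk_pos (k : ℕ) : 0 < Tk k := by
  have := Sk_pos k
  unfold Tk
  positivity

theorem Rk_eq (k : ℕ) : Rk k = 8 * (2 ^ (k + 13) * Tk k) := by
  unfold Rk Tk
  have e : (2 : ℤ) ^ (2 * k + 32) = 8 * (2 ^ (k + 13) * 2 ^ (k + 16)) := by
    rw [← pow_add, show (8 : ℤ) = 2 ^ 3 by norm_num, ← pow_add]
    congr 1
    ring
  rw [e]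
  ring

theorem Rk_pos (k : ℕ) : 0 < Rk k := by
  have := Sk_pos k
  unfold Rk
  positivity

theorem sum_Rk_le (i : ℕ) : ∑ l ∈ Finset.range i, Rk l ≤ Sk i := by
  induction i with
  | zero => simpa using (Sk_pos 0).le
  | succ i ih =>
    rw [Finset.sum_range_succ]
    have h1 : Sk (i + 1) = 2 ^ (3 * i + 48) * Sk i := rfl
    have h2 : (2 : ℤ) ^ (2 * i + 33) ≤ 2 ^ (3 * i + 48) :=
      pow_le_pow_right₀ (by norm_num) (by omega)
    have h3 : (2 : ℤ) ^ (2 * i + 33) = 2 * 2 ^ (2 * i + 32) := by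
      rw [show 2 * i + 33 = (2 * i + 32) + 1 by ring, pow_succ]
      ring
    have h4 : (1 : ℤ) ≤ 2 ^ (2 * i + 32) := one_le_pow₀ (by norm_num)
    have h5 := Sk_pos i
    have h6 : Rk i = 2 ^ (2 * i + 32) * Sk i := rfl
    rw [h1, h6]
    have h7 : 2 * 2 ^ (2 * i + 32) * Sk i ≤ 2 ^ (3 * i + 48) * Sk i :=
      mul_le_mul_of_nonneg_right (h3 ▸ h2) h5.le
    have h8 : Sk i ≤ 2 ^ (2 * i + 32) * Sk i := le_mul_of_one_le_left h5.le h4
    linarith

theorem Sk_le_c (i : ℕ) : Sk i ≤ 2 ^ (i + 13) * Tk i := by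
  unfold Tk
  have h1 : (1 : ℤ) ≤ 2 ^ (i + 13) := one_le_pow₀ (by norm_num)
  have h2 : (1 : ℤ) ≤ 2 ^ (i + 16) := one_le_pow₀ (by norm_num)
  have h5 := Sk_pos i
  have h3 : (1 : ℤ) ≤ 2 ^ (i + 13) * 2 ^ (i + 16) := by nlinarith
  rw [← mul_assoc]
  nlinarith

theorem key (C : ℕ → Set (ℤ × ℤ)) (c R : ℕ → ℤ) (hc : ∀ i, 0 < c i) (hR : ∀ i, R i = 8 * c i)
    (k : ℕ) (hC : ∀ i < k, Sep (C i) (R i)) (v : ℤ × ℤ) :
    ∀ j ≤ k, ∃ w : ℤ × ℤ, dd v w ≤ ∑ i ∈ Finset.Ico (k - j) k, R i ∧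
      ∀ i, k - j ≤ i → i < k → ∀ z ∈ C i,
        2 * c i ≤ dd w z + ∑ l ∈ Finset.Ico (k - j) i, R l := by
  have hRpos : ∀ i, 0 < R i := fun i => by rw [hR]; linarith [hc i]
  intro j
  induction j with
  | zero =>
    intro _
    refine ⟨v, ?_, ?_⟩
    · rw [dd_self]
      exact Finset.sum_nonneg (fun i _ => (hRpos i).le)
    · intro i h1 h2
      omega
  | succ j ih =>
    intro hj
    obtain ⟨w, hw1, hw2⟩ := ih (by omega)
    obtain ⟨m, hm⟩ : ∃ m, m = k - (j + 1) := ⟨_, rfl⟩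
    have hm1 : k - j = m + 1 := by omega
    have hmk : m < k := by omega
    rw [← hm]
    rw [hm1] at hw1 hw2
    have hcm := hR m
    have hcpos := hc m
    have hsum : ∀ i, m + 1 ≤ i → ∑ l ∈ Finset.Ico m i, R l
        = R m + ∑ l ∈ Finset.Ico (m + 1) i, R l := by
      intro i hi
      exact Finset.sum_eq_sum_Ico_succ_bot (by omega) _
    by_cases hall : ∀ z ∈ C m, 2 * c m ≤ dd w z
    · refine ⟨w, ?_, ?_⟩
      · rw [hsum k (by omega)]
        have := hRpos m
        linarith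
      · intro i hi1 hi2 z hz
        rcases Nat.eq_or_lt_of_le hi1 with rfl | hi1
        · rw [Finset.Ico_self, Finset.sum_empty, add_zero]
          exact hall z hz
        · rw [hsum i hi1]
          have := hw2 i hi1 hi2 z hz
          have := hRpos m
          linarith
    · push Not at hall
      obtain ⟨z, hz, hlt⟩ := hall
      obtain ⟨w', hw'⟩ : ∃ w' : ℤ × ℤ, w' = (z.1 + 2 * c m, z.2) := ⟨_, rfl⟩
      have hd : dd w' z = 2 * c m := by
        unfold dd
        rw [hw']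
        simp only [add_sub_cancel_left, sub_self, abs_zero]
        rw [abs_of_pos (by linarith)]
        exact max_eq_left (by linarith)
      have hww : dd w w' ≤ R m := by
        have := dd_tri w z w'
        rw [dd_comm z w', hd] at this
        linarith
      refine ⟨w', ?_, ?_⟩
      · rw [hsum k (by omega)]
        have := dd_tri v w w'
        linarith
      · intro i hi1 hi2 z' hz'
        rcases Nat.eq_or_lt_of_le hi1 with rfl | hi1
        · rw [Finset.Ico_self, Finset.sum_empty, add_zero]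
          by_cases hzz : z' = z
          · rw [hzz, hd]
          · have h1 := hC m hmk z hz z' hz' (Ne.symm hzz)
            have h2 := dd_tri z w' z'
            rw [dd_comm z w', hd] at h2
            linarith
        · rw [hsum i hi1]
          have h1 := hw2 i hi1 hi2 z' hz'
          have h2 := dd_tri w w' z'
          linarith

theorem main : S_TIP := by
  intro k C hC v
  obtain ⟨w, hw1, hw2⟩ := key C (fun i => 2 ^ (i + 13) * Tk i) Rk
    (fun i => by have := Tk_pos i; positivity) Rk_eq k hC v k le_rfl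
  rw [Nat.sub_self, Nat.Ico_zero_eq_range] at hw1
  refine ⟨w, hw1, fun i hi z hz => ?_⟩
  have h1 := hw2 i (by omega) hi z hz
  rw [Nat.sub_self, Nat.Ico_zero_eq_range] at h1
  have h2 := sum_Rk_le i
  have h3 := Sk_le_c i
  linarith

end Pool.Agent.W374.BMTip
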